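import Pool.Agent.Lib.MP_1a91b9_ntT3.S8.Units
import Pool.Agent.Lib.MP_1a91b9_ntT.S6.KF
import Pool.Agent.Lib.MP_1a91b9_ntG.Psi

/-!
# T3: the moduli `ω - 2` and `3`
-/

set_option autoImplicit false

namespace Pool.Agent.Lib.MP_1a91b9_ntT3

open NumberField IsDedekindDomain Pool.Agent.Lib.MP_1a91b9_ntT Pool.Agent.Lib.MP_1a91b9_ntG

theorem omO_rel : omO ^ 2 + omO + 1 = 0 := S8.omO_sq

/-- every integer of `K` is congruent to an integer between `0` and `6` -/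
theorem exists_res (a : 𝓞 K) : ∃ r : ℤ, 0 ≤ r ∧ r < 7 ∧ piO ∣ a - (r : 𝓞 K) := by
  obtain ⟨p, q, hpq⟩ := kf_repr a
  have h1 : a = (p : 𝓞 K) + (q : 𝓞 K) * omO := hpq
  have h2 := Int.emod_add_mul_ediv (p + 2 * q) 7
  have h3 := congrArg (fun z : ℤ => (z : 𝓞 K)) h2
  push_cast at h3
  refine ⟨(p + 2 * q) % 7, Int.emod_nonneg _ (by norm_num), Int.emod_lt_of_pos _ (by norm_num),
    (q : 𝓞 K) - (omO + 3) * (((p + 2 * q) / 7 : ℤ) : 𝓞 K), ?_⟩
  rw [h1, piO]
  linear_combination -h3 + (((p + 2 * q) / 7 : ℤ) : 𝓞 K) * omO_rel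

/-- `ω` as a unit -/
noncomputable def omU : (𝓞 K)ˣ :=
  ⟨omO, omO ^ 2, by linear_combination (omO - 1) * omO_rel,
    by linear_combination (omO - 1) * omO_rel⟩

theorem piO_ne : piO ≠ 0 := by
  intro h
  obtain ⟨r, -, -, hr⟩ := exists_res (7 : 𝓞 K)
  have h7 : (7 : 𝓞 K) = 0 := by
    have : (7 : 𝓞 K) = -(piO * (omO + 3)) := by
      rw [piO]
      linear_combination omO_rel
    rw [this, h]
    ring
  norm_num at h7

instance isMod_piO : IsMod piO where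
  ne := piO_ne
  inj := fun u hu => Units.ext (S8.unit_eq_one u hu)
  surj := by
    intro a ha
    obtain ⟨r, h0, h7, hr⟩ := exists_res a
    have key : ∀ u : (𝓞 K)ˣ, piO ∣ (u : 𝓞 K) * (r : 𝓞 K) - 1 → piO ∣ (u : 𝓞 K) * a - 1 := by
      intro u hu
      have e : (u : 𝓞 K) * a - 1 = (u : 𝓞 K) * (a - (r : 𝓞 K)) + ((u : 𝓞 K) * (r : 𝓞 K) - 1) := by
        ring
      rw [e]
      exact dvd_add (Dvd.dvd.mul_left hr _) hu
    have hr' : r = 0 ∨ r = 1 ∨ r = 2 ∨ r = 3 ∨ r = 4 ∨ r = 5 ∨ r = 6 := by omega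
    have hO : ((omU : (𝓞 K)ˣ) : 𝓞 K) = omO := rfl
    rcases hr' with h | h | h | h | h | h | h <;> subst h
    · exfalso
      apply S8.piO_not_unit
      obtain ⟨x, y, hxy⟩ := ha
      rw [Int.cast_zero, sub_zero] at hr
      refine isUnit_of_dvd_one ?_
      rw [← hxy]
      exact dvd_add (Dvd.dvd.mul_left hr _) (dvd_mul_left _ _)
    · exact ⟨1, key 1 ⟨0, by rw [Units.val_one]; push_cast; ring⟩⟩
    · refine ⟨omU ^ 2, key _ ⟨1 + omO, ?_⟩⟩
      rw [Units.val_pow_eq_pow_val, hO, piO]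
      push_cast
      linear_combination omO_rel
    · refine ⟨-omU, key _ ⟨omO, ?_⟩⟩
      rw [Units.val_neg, hO, piO]
      push_cast
      linear_combination -omO_rel
    · refine ⟨omU, key _ ⟨1 - omO, ?_⟩⟩
      rw [hO, piO]
      push_cast
      linear_combination omO_rel
    · refine ⟨-omU ^ 2, key _ ⟨-1 - 2 * omO, ?_⟩⟩
      rw [Units.val_neg, Units.val_pow_eq_pow_val, hO, piO]
      push_cast
      linear_combination -3 * omO_rel
    · refine ⟨-1, key _ ⟨omO + 3, ?_⟩⟩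
      rw [Units.val_neg, Units.val_one, piO]
      push_cast
      linear_combination -omO_rel

end Pool.Agent.Lib.MP_1a91b9_ntT3
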