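import Pool.Agent.Lib.MP_1a91b9_ntT3.EF.Defs
import Pool.Agent.Lib.MP_1a91b9_ntG.Vals
import Pool.Agent.Lib.MP_1a91b9_ntT.S4.ConjPsi

/-!
# T3: the admissible places
-/

set_option autoImplicit false

namespace Pool.Agent.Lib.MP_1a91b9_ntT3

open NumberField IsDedekindDomain Polynomial WeierstrassCurve Pool.Agent.Lib.MP_1a91b9_nt
  Pool.Agent.Lib.MP_1a91b9_ntT Pool.Agent.Lib.MP_1a91b9_ntG

/-- a point of order `3` gives a root of `T² - ω T + 1` -/
theorem root_of_order_three {k : Type*} [Field k] (w x y : k) (hw : w ^ 2 + w + 1 = 0)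
    (h3 : (3 : k) ≠ 0) (heq : y ^ 2 + w * y = x ^ 3 + (1 + 2 * w) * x ^ 2 - x)
    (_hy : 2 * y + w ≠ 0)
    (hs : (3 * x ^ 2 + 2 * (1 + 2 * w) * x - 1) ^ 2 =
      ((1 + 2 * w) + 3 * x) * (2 * y + w) ^ 2) :
    ∃ t : k, t ^ 2 - w * t + 1 = 0 := by
  have hl2 : (1 + 2 * w) ^ 2 = -3 := by linear_combination 4 * hw
  have hl : (1 + 2 * w) ≠ 0 := by
    intro h
    rw [h] at hl2
    apply h3
    linear_combination hl2
  -- the 3-division polynomial
  have hpsi : ((1 + 2 * w) * x - 1) *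
      ((1 + 2 * w) * x ^ 3 - 3 * x ^ 2 - (1 + 2 * w) * x - w) = 0 := by
    linear_combination hs + ((1 + 2 * w) + 3 * x) * 4 * heq -
      (-2 * w - 4 * x ^ 4 + 4 * x ^ 2 - x + 1) * hw
  by_cases h1 : (1 + 2 * w) * x - 1 = 0
  · -- the point is killed by `1 + 2 ω`
    refine ⟨3 * y + 2 * w, ?_⟩
    have hx : 3 * x = -(1 + 2 * w) := by
      linear_combination x * hl2 - (1 + 2 * w) * h1
    have hgoal : 3 * ((3 * y + 2 * w) ^ 2 - w * (3 * y + 2 * w) + 1) = 0 := by
      linear_combination 27 * heq + ((3 * x) ^ 2 - (1 + 2 * w) * (3 * x) + (1 + 2 * w) ^ 2 +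
        3 * (1 + 2 * w) * (3 * x - (1 + 2 * w)) - 9) * hx + 2 * (1 + 2 * w) * hl2 + 6 * hw
    exact (mul_eq_zero.mp hgoal).resolve_left h3
  · -- its multiple by `1 + 2 ω` is
    have h2 := (mul_eq_zero.mp hpsi).resolve_left h1
    set D := 1 - (1 + 2 * w) * x with hD
    have hD0 : D ≠ 0 := by
      intro h
      apply h1
      linear_combination -h
    set M := (1 + 2 * w) * D ^ 2 with hM
    have hM0 : M ≠ 0 := mul_ne_zero hl (pow_ne_zero _ hD0)
    set N := (3 * x ^ 2 + 2 * (1 + 2 * w) * x - 1) * y +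
      (-3 * x ^ 2 + (2 * w ^ 2 - 2 * w) * x + 1) with hN
    have key : 9 * (N ^ 2 + w * M * N) = (1 + 2 * w) * M ^ 2 := by
      rw [hN, hM, hD]
      linear_combination 9 * (3 * x ^ 2 + 2 * (1 + 2 * w) * x - 1) ^ 2 * heq +
        (-3 * (1 + 2 * w) - 36 * x + 54 * (1 + 2 * w) * x ^ 2 + 108 * x ^ 3 -
          27 * (1 + 2 * w) * x ^ 4) * h2 +
        (-128*w^5*x^4 - 320*w^4*x^4 + 400*w^4*x^3 - 224*w^3*x^4 + 288*w^3*x^3*y + 440*w^3*x^3
          - 336*w^3*x^2 + 216*w^2*x^4*y - 232*w^2*x^4 + 288*w^2*x^3*y + 12*w^2*x^3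
          - 360*w^2*x^2*y - 36*w^2*x^2 + 100*w^2*x + 108*w*x^4*y + 140*w*x^4 - 360*w*x^3*y
          + 314*w*x^3 - 180*w*x^2*y + 36*w*x^2 + 144*w*x*y - 62*w*x - 8*w + 108*x^7 + 252*x^5
          - 162*x^4*y + 224*x^4 - 108*x^3*y - 56*x^3 + 108*x^2*y - 60*x^2 + 36*x*y - 8*x
          - 18*y + 8) * hw
    refine ⟨3 * (N / M) + 2 * w, ?_⟩
    have e : (3 * (N / M) + 2 * w) ^ 2 - w * (3 * (N / M) + 2 * w) + 1 =
        (9 * (N ^ 2 + w * M * N) + (2 * w ^ 2 + 1) * M ^ 2) / M ^ 2 := by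
      field_simp
      ring
    rw [e, key, div_eq_zero_iff]
    left
    linear_combination 2 * M ^ 2 * hw

theorem root_of_three_dvd {k : Type*} [Field k] [Finite k] (w : k) (hw : w ^ 2 + w + 1 = 0)
    (h3 : (3 : k) ≠ 0) (hd : 3 ∣ Nat.card (EF.W49 w).toAffine.Point) :
    ∃ t : k, t ^ 2 - w * t + 1 = 0 := by
  classical
  have hfin : Finite (EF.W49 w).toAffine.Point :=
    Finite.of_equiv _ (pointEquivOption _).symm
  have hp : Fact (Nat.Prime 3) := ⟨Nat.prime_three⟩
  obtain ⟨P, hP⟩ := exists_prime_addOrderOf_dvd_card' (G := (EF.W49 w).toAffine.Point) 3 hd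
  have hP0 : P ≠ 0 := by
    rintro rfl
    rw [addOrderOf_zero] at hP
    omega
  have h3P : P + P = -P := by
    have h : 3 • P = 0 := by rw [← hP]; exact addOrderOf_nsmul_eq_zero P
    rw [eq_neg_iff_add_eq_zero, ← h]
    abel
  cases P with
  | zero => exact absurd rfl hP0
  | some x y hxy =>
    have hneg : (EF.W49 w).toAffine.negY x y = -y - w := by
      simp only [Affine.negY, EF.W49, WeierstrassCurve.toAffine]
      ring
    have hyne : y ≠ (EF.W49 w).toAffine.negY x y := by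
      intro h
      rw [Affine.Point.add_self_of_Y_eq h] at h3P
      exact hP0 (neg_eq_zero.mp h3P.symm)
    rw [Affine.Point.add_self_of_Y_ne hyne, Affine.Point.neg_some] at h3P
    have hX := ((Affine.Point.some.injEq _ _ _ _ _ _).mp h3P).1
    have hslope := Affine.slope_of_Y_ne (W := (EF.W49 w).toAffine) (rfl : x = x) hyne
    have heq := hxy.1
    rw [Affine.equation_iff] at heq
    rw [hneg] at hyne hslope
    have h2y : 2 * y + w ≠ 0 := by
      intro h
      apply hyne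
      linear_combination h
    set s := (EF.W49 w).toAffine.slope x x y y with hs
    simp only [Affine.addX, EF.W49, WeierstrassCurve.toAffine] at hX heq hslope
    refine root_of_order_three w x y hw h3 (by linear_combination heq) h2y ?_
    have h4 : s * (2 * y + w) = 3 * x ^ 2 + 2 * (1 + 2 * w) * x - 1 := by
      rw [hslope]
      have h5 : y - (-y - w) ≠ 0 := by
        intro h
        apply h2y
        linear_combination h
      field_simp
      ring
    rw [← h4]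
    linear_combination (2 * y + w) ^ 2 * hX

section
variable {F : Type*} [Field F] [NumberField F] [Algebra K F]

/-- The condition on the ramified places, in terms of the number of points. -/
theorem not_three_dvd_card (w : HeightOneSpectrum (𝓞 F)) (h3 : (3 : 𝓞 F) ∉ w.asIdeal)
    (hno : ∀ t : 𝓞 F, t ^ 2 - algebraMap (𝓞 K) (𝓞 F) omO * t + 1 ∉ w.asIdeal) :
    ¬ 3 ∣ Nat.card (EF.W49 (redMap K w omO)).toAffine.Point := by
  intro hd
  have hfin : Finite (IsLocalRing.ResidueField (w.adicCompletionIntegers F)) := finite_residue w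
  have hw : (redMap K w omO) ^ 2 + redMap K w omO + 1 = 0 := by
    rw [← map_pow, ← map_add, ← map_one (redMap K w), ← map_add, EF.omO_eq, map_zero]
  have h3' : (3 : IsLocalRing.ResidueField (w.adicCompletionIntegers F)) ≠ 0 := by
    intro h
    apply h3
    have : (3 : 𝓞 F) ∈ RingHom.ker (redMap F w) := by rw [RingHom.mem_ker, map_ofNat]; exact h
    rw [redMap_ker] at this
    exact this
  obtain ⟨y, hy⟩ := root_of_three_dvd _ hw h3' hd
  obtain ⟨x, hx⟩ := residue_surjective w y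
  apply hno x
  have hx' : redMap F w x = y := hx
  have ho : redMap F w (algebraMap (𝓞 K) (𝓞 F) omO) = redMap K w omO := rfl
  have h5 : x ^ 2 - algebraMap (𝓞 K) (𝓞 F) omO * x + 1 ∈ RingHom.ker (redMap F w) := by
    rw [RingHom.mem_ker, map_add, map_sub, map_pow, map_mul, map_one, hx', ho, hy]
  rw [redMap_ker] at h5
  exact h5

theorem coprime_of_norm (x : 𝓞 K) (n : ℕ) (hn : ¬ 3 ∣ n)
    (h : embK (x : K) * (starRingEnd ℂ) (embK (x : K)) = (n : ℂ)) : IsCoprime x (3 : 𝓞 K) := by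
  have h1 : x * S4.cO x = (n : 𝓞 K) := by
    apply RingOfIntegers.coe_injective
    apply embK.toRingHom.injective
    change embK (algebraMap (𝓞 K) K (x * S4.cO x)) = embK (algebraMap (𝓞 K) K (n : 𝓞 K))
    rw [map_mul (algebraMap (𝓞 K) K), map_mul embK]
    change embK (x : K) * embK ((S4.cO x : 𝓞 K) : K) = _
    rw [S4.cO_coe, S4.embK_tau, h, map_natCast (algebraMap (𝓞 K) K), map_natCast embK]
  have h2 : (3 : ℕ).Coprime n := (Nat.Prime.coprime_iff_not_dvd Nat.prime_three).mpr hn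
  obtain ⟨a, b, hab⟩ := Nat.isCoprime_iff_coprime.mpr h2
  refine ⟨(b : 𝓞 K) * S4.cO x, (a : 𝓞 K), ?_⟩
  have h3 := congrArg (fun z : ℤ => (z : 𝓞 K)) hab
  push_cast at h3
  linear_combination h3 + (b : 𝓞 K) * h1

/-- The ramified places are admissible. -/
theorem adm_ps (w : HeightOneSpectrum (𝓞 F)) (h3 : (3 : 𝓞 F) ∉ w.asIdeal)
    (hpi : algebraMap (𝓞 K) (𝓞 F) piO ∉ w.asIdeal)
    (hno : ∀ t : 𝓞 F, t ^ 2 - algebraMap (𝓞 K) (𝓞 F) omO * t + 1 ∉ w.asIdeal)
    (hef : ∀ x : ℂ, aeval x (locPoly (E49 F) w) =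
      (1 - psC piO F w.asIdeal * x) * (1 - psbC piO F w.asIdeal * x)) :
    IsCoprime (ps piO F w.asIdeal - 1) (3 : 𝓞 K) := by
  have hvp : algebraMap (𝓞 K) (𝓞 F) EF.vp ∉ w.asIdeal := by
    intro h
    apply hpi
    rw [EF.piO_eq, map_mul]
    exact w.asIdeal.mul_mem_left _ h
  have h1 := hef 1
  rw [mul_one, mul_one, EF.locPoly_good w hvp] at h1
  refine coprime_of_norm _ _ (not_three_dvd_card w h3 hno) ?_
  have e : embK (((ps piO F w.asIdeal - 1 : 𝓞 K)) : K) = psC piO F w.asIdeal - 1 := by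
    rw [psC]
    change embK (algebraMap (𝓞 K) K (ps piO F w.asIdeal - 1)) = _
    rw [map_sub, map_one, map_sub, map_one]
  rw [e, map_sub, map_one]
  change (psC piO F w.asIdeal - 1) * (psbC piO F w.asIdeal - 1) = _
  have h4 : (1 - psC piO F w.asIdeal) * (1 - psbC piO F w.asIdeal) =
      (Nat.card (EF.W49 (redMap K w omO)).toAffine.Point : ℂ) := by
    rw [← h1]
    simp only [map_add, map_sub, map_one, map_mul, aeval_X, map_pow, map_natCast]
    ring
  rw [← h4]
  ring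

end

end Pool.Agent.Lib.MP_1a91b9_ntT3
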