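import Pool.Agent.Lib.MP_1a91b9_ntT3.Mod
import Pool.Agent.Lib.MP_1a91b9_ntT3.Adm
import Pool.Agent.Lib.MP_1a91b9_ntT3.S3.Lam
import Pool.Agent.Lib.MP_1a91b9_ntT3.S3.BsG
import Pool.Agent.Lib.MP_1a91b9_ntT3.S5.Main
import Pool.Agent.Lib.MP_1a91b9_ntG.Plug

/-!
# T3: the assembly, with the class field theory and the Euler factors as hypotheses
-/

set_option autoImplicit false

namespace Pool.Agent.Lib.MP_1a91b9_ntT3

open NumberField IsDedekindDomain Polynomial Pool.Agent.Lib.MP_1a91b9_nt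
  Pool.Agent.Lib.MP_1a91b9_ntT Pool.Agent.Lib.MP_1a91b9_ntG
open Pool.Agent.Lib.MP_1a91b9_ntT.S4 (Lf val_integral val_eq_one_of_mul
  differentiable_conj_conj)

universe u

/-- The input from class field theory. -/
def CFProp : Prop :=
  ∀ (F F' : Type u) [Field F] [NumberField F] [Algebra K F] [Field F'] [NumberField F']
    [Algebra F F'], IsGalois F F' → Module.finrank F F' = 3 →
    (∀ v : HeightOneSpectrum (𝓞 F), (3 : 𝓞 F) ∈ v.asIdeal → ¬ MP_1a91b9_ntG.Ram F' v) →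
    ∃ x : HeightOneSpectrum (𝓞 F) → ZMod 3, CFData 3 F' x

/-- The Euler factors of `E49` at the places prime to `ω - 2`. -/
def EFPlace (F : Type u) [Field F] [NumberField F] [Algebra K F] : Prop :=
  ∀ w : HeightOneSpectrum (𝓞 F), algebraMap (𝓞 K) (𝓞 F) piO ∉ w.asIdeal →
    ∀ x : ℂ, aeval x (locPoly (E49 F) w) =
      (1 - psC piO F w.asIdeal * x) * (1 - psbC piO F w.asIdeal * x)

/-- The L-series of `E49`. -/
def EFSeries (F : Type u) [Field F] [NumberField F] [Algebra K F] : Prop :=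
  ∀ s : ℂ, 2 < s.re → (E49 F).LSeries s = Lf (psC piO F) s * Lf (psbC piO F) s

theorem piO_coprime_three : IsCoprime piO ((3 : ℕ) : 𝓞 K) := by
  refine ⟨-(omO + 3), -2, ?_⟩
  rw [piO]
  push_cast
  linear_combination -omO_rel

theorem embK_piO : embK (piO : K) = zt - 2 := by
  have h : ((piO : 𝓞 K) : K) = om - 2 := by
    change algebraMap (𝓞 K) K (omO - 2) = om - 2
    rw [map_sub (algebraMap (𝓞 K) K), map_ofNat (algebraMap (𝓞 K) K)]
    rfl
  rw [h, map_sub, embK_om, map_ofNat]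

theorem val_pi (W : ValuationSubring ℂ) (hW : ((3 : ℕ) : ℂ)⁻¹ ∉ W) :
    W.valuation (zt - 2) = 1 := by
  have hz : IsIntegral ℤ zt := zt_spec.isIntegral (by norm_num)
  have h1 : zt ^ 2 + zt + 1 = 0 := by
    have h := congrArg (fun x : 𝓞 K => embK (x : K)) omO_rel
    simp only [map_add, map_pow, map_one, map_zero] at h
    have e : embK ((omO : 𝓞 K) : K) = zt := embK_om
    rw [e] at h
    exact h
  have hn : ∀ n : ℕ, IsIntegral ℤ (n : ℂ) := fun n => isIntegral_natCast (R := ℤ) n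
  have h2 : IsIntegral ℤ (2 : ℂ) := by exact_mod_cast hn 2
  have h3 : IsIntegral ℤ (3 : ℂ) := by exact_mod_cast hn 3
  refine val_eq_one_of_mul W (val_integral W (hz.sub h2))
    (val_integral W ((hz.add h3).neg)) ?_
  have e : (zt - 2) * (-(zt + 3)) = ((7 : ℕ) : ℂ) := by
    push_cast
    linear_combination -h1
  rw [e]
  exact val_coprime W hW 7 (by norm_num)

section
variable {κ : ℂ} (hκ : ∀ A : ValuationSubring ℂ, ((3 : ℕ) : ℂ)⁻¹ ∉ A →
    (∀ m : ℕ, m.Coprime 3 → ∀ z : ℂ, (∃ l : ℤ × ℤ, (m : ℂ) * z = lp l) → E1 z / κ ∈ A) ∧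
      A.valuation (E1 (1 / (zt - 2)) / κ) = 1)
include hκ

theorem valueProp3 {F : Type u} [Field F] [NumberField F] [Algebra K F] (h : TowerK3 F) :
    ValueProp piO 3 κ F := by
  refine valueProp_gen Nat.prime_three piO κ (fun A hA => (hκ A hA).1) (-1)
    (isCoprime_one_left.neg_left) ?_ (S8.uq_three h) (fun m hm u hu => S8.units_norm m hm u hu)
    (fun m hm u hu k hk huk => S8.units_tor_tower h m hm u hu k hk huk)
  rw [(S8.tower_odd h).neg_one_pow]
  exact ⟨1, 1, by push_cast; ring⟩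

theorem baseVal3 {F : Type u} [Field F] [NumberField F] [Algebra K F]
    (h : Function.Bijective (algebraMap K F)) : BaseVal piO 3 κ F := by
  refine baseVal_gen piO piO_coprime_three κ h (valueProp3 hκ (TowerK3.base F h)) ?_
  intro g hg hgs W hW
  have h1 := bs_gen piO piO_ne (isMod_piO.inj) h g hg hgs
  rw [embK_piO] at h1
  have e : g 1 / κ = (E1 (1 / (zt - 2)) / κ) / (zt - 2) := by
    rw [h1]
    ring
  rw [e, map_div₀, (hκ W hW).2, val_pi W hW, div_one]

theorem base3 {F : Type u} [Field F] [NumberField F] [Algebra K F]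
    (h : Function.Bijective (algebraMap K F)) : UnitProp piO 3 κ F :=
  base_main (f := piO) (q := 3) (Ω := κ) h (baseVal3 hκ h)

theorem step3 {F F' : Type u} [Field F] [NumberField F] [Algebra K F] [Field F'] [NumberField F']
    [Algebra K F'] [Algebra F F'] [IsScalarTower K F F'] (hG : IsGalois F F')
    (hr : Module.finrank F F' = 3)
    (hu : ∀ v : HeightOneSpectrum (𝓞 F), (3 : 𝓞 F) ∈ v.asIdeal → ¬ Ram F' v)
    (ha : ∀ v : HeightOneSpectrum (𝓞 F), Ram F' v →
      algebraMap (𝓞 K) (𝓞 F) piO ∉ v.asIdeal →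
      ∀ t : 𝓞 F, t ^ 2 - algebraMap (𝓞 K) (𝓞 F) omO * t + 1 ∉ v.asIdeal)
    (h : TowerK3 F) (hE : EFPlace F) (x : HeightOneSpectrum (𝓞 F) → ZMod 3)
    (hx : CFData 3 F' x) (ih : UnitProp piO 3 κ F) : UnitProp piO 3 κ F' := by
  have hp : Fact (Nat.Prime 3) := ⟨Nat.prime_three⟩
  have htame : ∀ v : HeightOneSpectrum (𝓞 F), MP_1a91b9_ntG.Ram F' v →
      ((3 : ℕ) : 𝓞 F) ∉ v.asIdeal := by
    intro v hv h3
    exact hu v (by exact_mod_cast h3) hv
  have hadm : ∀ v : HeightOneSpectrum (𝓞 F), MP_1a91b9_ntG.Ram F' v → up piO F ∉ v.asIdeal →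
      IsCoprime (ps piO F v.asIdeal - 1) ((3 : ℕ) : 𝓞 K) := by
    intro v hv hpi
    have h3 : (3 : 𝓞 F) ∉ v.asIdeal := by
      intro h3
      exact htame v hv (by exact_mod_cast h3)
    have h4 := adm_ps v h3 hpi (ha v hv hpi) (hE v hpi)
    exact_mod_cast h4
  exact step_main hr x hx piO_coprime_three htame hadm (valueProp3 hκ h)
    (valueProp3 hκ (TowerK3.step F F' hG hr hu ha h)) ih

theorem unitProp3 (hCF : CFProp.{u})
    (hEF : ∀ (F : Type u) [Field F] [NumberField F] [Algebra K F], TowerK3 F → EFPlace F)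
    (F : Type u) [Field F] [NumberField F] [Algebra K F] (h : TowerK3 F) :
    UnitProp piO 3 κ F := by
  induction h with
  | base F h => exact base3 hκ h
  | step F F' hG hr hu ha h ih =>
    obtain ⟨x, hx⟩ := hCF F F' hG hr hu
    exact step3 hκ hG hr hu ha h (hEF F h) x hx ih

end

theorem Lf_conj3 {F : Type u} [Field F] [NumberField F] [Algebra K F] (s : ℂ) :
    Lf (psC piO F) s = (starRingEnd ℂ) (Lf (psbC piO F) ((starRingEnd ℂ) s)) := by
  rw [Lf, Lf, Complex.conj_tsum]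
  refine tsum_congr fun I => ?_
  rw [map_mul, psbC, Complex.conj_conj]
  congr 1
  rw [← map_neg, Complex.cpow_conj _ _ (by
    rw [Complex.natCast_arg]
    exact Real.pi_pos.ne), Complex.conj_natCast, Complex.conj_conj]

/-- THEOREM T3 from the class field theory and the Euler factors. -/
theorem main3 (hCF : CFProp.{u})
    (hEF : ∀ (F : Type u) [Field F] [NumberField F] [Algebra K F], TowerK3 F →
      EFPlace F ∧ EFSeries F)
    (F : Type u) [Field F] [NumberField F] [Algebra K F] (h : TowerK3 F) :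
    (∃ g : ℂ → ℂ, Differentiable ℂ g ∧ (∀ s : ℂ, 2 < s.re → g s = (E49 F).LSeries s) ∧
      g 1 ≠ 0) ∧ Finite (E49 F).toAffine.Point := by
  refine ⟨?_, S5.s5_finite F h⟩
  obtain ⟨κ, -, hκ⟩ := s3l_main
  obtain ⟨L, hL, hL1, hLW⟩ := unitProp3 hκ hCF (fun F _ _ _ h => (hEF F h).1) F h
  obtain ⟨W, hW⟩ := Ell.d3_exists Nat.prime_three
  have hne : L 1 ≠ 0 := S4.UnitProp.ne_zero (hLW W hW)
  refine ⟨fun s => (starRingEnd ℂ) (L ((starRingEnd ℂ) s)) * L s,
    (differentiable_conj_conj hL).mul hL, fun s hs => ?_, ?_⟩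
  · change (starRingEnd ℂ) (L ((starRingEnd ℂ) s)) * L s = _
    rw [(hEF F h).2 s hs, hL1 s hs, hL1 _ (by rw [Complex.conj_re]; exact hs), ← Lf_conj3]
  · change (starRingEnd ℂ) (L ((starRingEnd ℂ) 1)) * L 1 ≠ 0
    rw [map_one]
    exact mul_ne_zero ((_root_.map_ne_zero _).mpr hne) hne

end Pool.Agent.Lib.MP_1a91b9_ntT3
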