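import Pool.Agent.Lib.MP_1a91b9_ntT.S7.HalfPlane
import Pool.Agent.Lib.MP_1a91b9_ntT3.EF.Main
import Pool.Agent.Lib.MP_1a91b9_ntT3.Final

/-!
# T3: the assembly from the class field theory, in the half plane `3/2 < Re s`
-/

set_option autoImplicit false

namespace Pool.Agent.Lib.MP_1a91b9_ntT3

open NumberField IsDedekindDomain Pool.Agent.Lib.MP_1a91b9_nt Pool.Agent.Lib.MP_1a91b9_ntT
  Pool.Agent.Lib.MP_1a91b9_ntG
open Pool.Agent.Lib.MP_1a91b9_ntT.S4 (Lf differentiable_conj_conj)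
open Pool.Agent.Lib.MP_1a91b9_ntT.S7 (coefI hasSum_coefI_of_le half_plane entire_half)

universe u

theorem ef_place (F : Type u) [Field F] [NumberField F] [Algebra K F] (h : TowerK3 F) :
    EFPlace F := fun w hw x => EF.place_E49 h w hw x

theorem ef_series (F : Type u) [Field F] [NumberField F] [Algebra K F] (h : TowerK3 F) :
    EFSeries F := fun s hs => EF.LSeries_E49 h s hs

/-- `L(E/F, s)` for `3/2 < Re s`. -/
theorem half3 {F : Type u} [Field F] [NumberField F] [Algebra K F] (h : TowerK3 F) (s : ℂ)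
    (hs : 3 / 2 < s.re) : LSeriesSummable ((↑) ∘ (E49 F).LFunction) s ∧
      (E49 F).LSeries s = Lf (psC piO F) s * Lf (psbC piO F) s := by
  have hp := hasSum_coefI_of_le (psC piO F) (psC_one piO F) (psC_mul piO F)
    norm_psC_le
  have hq := hasSum_coefI_of_le (psbC piO F) (psbC_one piO F) (psbC_mul piO F)
    norm_psbC_le
  have h1 := half_plane (E49 F) (LSeries.convolution (coefI (psC piO F)) (coefI (psbC piO F)))
    (fun s hs => ((hp s hs).convolution (hq s hs)).LSeriesSummable)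
    (fun s hs => by
      have hs' : 3 / 2 < s.re := by linarith
      rw [ef_series F h s hs, ((hp s hs').convolution (hq s hs')).LSeries_eq]) s hs
  refine ⟨h1.1, ?_⟩
  rw [h1.2, ((hp s hs).convolution (hq s hs)).LSeries_eq]

theorem entire3 {F : Type u} [Field F] [NumberField F] [Algebra K F] (h : TowerK3 F)
    {g : ℂ → ℂ} (hg : Differentiable ℂ g) (h2 : ∀ s : ℂ, 2 < s.re → g s = (E49 F).LSeries s) :
    ∀ s : ℂ, 3 / 2 < s.re → g s = (E49 F).LSeries s :=
  entire_half (E49 F) (fun s hs => (half3 h s hs).1) hg h2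

/-- THEOREM T3 from the class field theory. -/
theorem main32 (hCF : CFProp.{u}) (F : Type u) [Field F] [NumberField F] [Algebra K F]
    (h : TowerK3 F) :
    (∃ g : ℂ → ℂ, Differentiable ℂ g ∧ (∀ s : ℂ, 3 / 2 < s.re → g s = (E49 F).LSeries s) ∧
      g 1 ≠ 0) ∧ Finite (E49 F).toAffine.Point := by
  obtain ⟨⟨g, hg, hg2, hg1⟩, hf⟩ := main3 hCF (fun F _ _ _ h => ⟨ef_place F h, ef_series F h⟩) F h
  exact ⟨⟨g, hg, entire3 h hg hg2, hg1⟩, hf⟩

/-- The value at `1` of the continuation: all that is known from the tower. -/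
theorem value3 (hCF : CFProp.{u}) {κ : ℂ} (hκ : ∀ A : ValuationSubring ℂ, ((3 : ℕ) : ℂ)⁻¹ ∉ A →
    (∀ m : ℕ, m.Coprime 3 → ∀ z : ℂ, (∃ l : ℤ × ℤ, (m : ℂ) * z = lp l) → E1 z / κ ∈ A) ∧
      A.valuation (E1 (1 / (zt - 2)) / κ) = 1)
    (F : Type u) [Field F] [NumberField F] [Algebra K F] (h : TowerK3 F) :
    ∃ (g : ℂ → ℂ) (l : ℂ), Differentiable ℂ g ∧
      (∀ s : ℂ, 3 / 2 < s.re → g s = (E49 F).LSeries s) ∧
      g 1 = ((‖l‖ ^ 2 : ℝ) : ℂ) ∧
      ∀ A : ValuationSubring ℂ, ((3 : ℕ) : ℂ)⁻¹ ∉ A →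
        A.valuation (l / κ ^ Module.finrank K F) = 1 := by
  obtain ⟨L, hL, hL1, hLW⟩ := unitProp3 hκ hCF (fun F _ _ _ h => ef_place F h) F h
  refine ⟨fun s => (starRingEnd ℂ) (L ((starRingEnd ℂ) s)) * L s, L 1,
    (differentiable_conj_conj hL).mul hL, entire3 h ((differentiable_conj_conj hL).mul hL)
      fun s hs => ?_, ?_, fun A hA => ?_⟩
  · change (starRingEnd ℂ) (L ((starRingEnd ℂ) s)) * L s = _
    rw [ef_series F h s hs, hL1 s hs, hL1 _ (by rw [Complex.conj_re]; exact hs), ← Lf_conj3]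
  · change (starRingEnd ℂ) (L ((starRingEnd ℂ) 1)) * L 1 = _
    rw [map_one, Complex.ofReal_pow, ← Complex.conj_mul']
  · exact hLW A hA

end Pool.Agent.Lib.MP_1a91b9_ntT3
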