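import Pool.Agent.Lib.MP_1a91b9_ntT.CF.Main
import Pool.Agent.Lib.MP_1a91b9_ntG.OfRecip
import Pool.Agent.Lib.MP_1a91b9_ntT3.Half

/-!
# THEOREM T3
-/

set_option autoImplicit false

namespace Pool.Agent.Lib.MP_1a91b9_ntT3

open NumberField IsDedekindDomain Pool.Agent.Lib.MP_1a91b9_nt Pool.Agent.Lib.MP_1a91b9_ntT
  Pool.Agent.Lib.MP_1a91b9_ntG

universe u

/-- The input from class field theory (`CF.reciprocity`). -/
theorem cfProp : CFProp.{u} := by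
  intro F F' _ _ _ _ _ _ hG hr hu
  have h3 : Fact (Nat.Prime 3) := ⟨Nat.prime_three⟩
  obtain ⟨x, -, hx1, hx2⟩ := CF.reciprocity F F' 3 (by norm_num) hr fun v hv h3v =>
    hu v (by exact_mod_cast h3v) ((ram_eq v).mpr hv)
  exact ⟨x, cfData_of Nat.prime_three hr x hx1 hx2⟩

/-- THEOREM T3. -/
theorem t3 (F : Type u) [Field F] [NumberField F] [Algebra K F] (h : TowerK3 F) :
    (∃ g : ℂ → ℂ, Differentiable ℂ g ∧ (∀ s : ℂ, 3 / 2 < s.re → g s = (E49 F).LSeries s) ∧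
      g 1 ≠ 0) ∧ Finite (E49 F).toAffine.Point :=
  main32 cfProp F h

end Pool.Agent.Lib.MP_1a91b9_ntT3
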