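import Pool.Agent.Lib.MP_1a91b9_ntT.Base

/-!
# BSD for `y² + ω y = x³ + (1 + 2ω) x² - x` over 3-extensions of `ℚ(√-3)`: common definitions
-/

set_option autoImplicit false

namespace Pool.Agent.Lib.MP_1a91b9_ntT3

open NumberField IsDedekindDomain Pool.Agent.Lib.MP_1a91b9_ntT

noncomputable section

theorem om_isIntegral : IsIntegral ℤ om := om_spec.isIntegral (by norm_num)

/-- The cube root of unity `om` in the ring of integers of `K`. -/
def omO : 𝓞 K := ⟨om, om_isIntegral⟩

/-- The prime element `ω - 2` of norm `7`. -/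
def piO : 𝓞 K := omO - 2

/-- The curve `y² + ω y = x³ + (1 + 2ω) x² - x`. -/
def E49 (F : Type*) [Field F] [Algebra K F] : WeierstrassCurve F :=
  ⟨0, algebraMap K F (1 + 2 * om), algebraMap K F om, -1, 0⟩

/-- The prime `v` of `F` ramifies in `F'`. -/
def Ram {F : Type*} [Field F] (F' : Type*) [Field F'] [Algebra F F']
    (v : HeightOneSpectrum (𝓞 F)) : Prop :=
  ∃ w : HeightOneSpectrum (𝓞 F'), v.asIdeal.map (algebraMap (𝓞 F) (𝓞 F')) ≤ w.asIdeal ^ 2

universe u

/-- Towers of admissible Galois extensions of degree `3` above `K`. -/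
inductive TowerK3 : ∀ (F : Type u) [Field F] [NumberField F] [Algebra K F], Prop
  | base (F : Type u) [Field F] [NumberField F] [Algebra K F]
      (h : Function.Bijective (algebraMap K F)) : TowerK3 F
  | step (F F' : Type u) [Field F] [NumberField F] [Algebra K F] [Field F'] [NumberField F']
      [Algebra K F'] [Algebra F F'] [IsScalarTower K F F'] (hG : IsGalois F F')
      (hr : Module.finrank F F' = 3)
      (hu : ∀ v : HeightOneSpectrum (𝓞 F), (3 : 𝓞 F) ∈ v.asIdeal → ¬ Ram F' v)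
      (ha : ∀ v : HeightOneSpectrum (𝓞 F), Ram F' v →
        algebraMap (𝓞 K) (𝓞 F) piO ∉ v.asIdeal →
        ∀ t : 𝓞 F, t ^ 2 - algebraMap (𝓞 K) (𝓞 F) omO * t + 1 ∉ v.asIdeal)
      (h : TowerK3 F) : TowerK3 F'

end

end Pool.Agent.Lib.MP_1a91b9_ntT3
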