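import Pool.Agent.Lib.MP_1a91b9_ntT3.Adm
import Pool.Agent.Lib.MP_1a91b9_ntT3.S8.Gal

/-!
# T3: the condition on the ramified primes in terms of the number of points
-/

set_option autoImplicit false

namespace Pool.Agent.Lib.MP_1a91b9_ntT3

open NumberField IsDedekindDomain WeierstrassCurve Pool.Agent.Lib.MP_1a91b9_nt
  Pool.Agent.Lib.MP_1a91b9_ntT Pool.Agent.Lib.MP_1a91b9_ntG

/-- a root of `T² - ω T + 1` gives a point of order `3` -/
theorem three_dvd_of_root {k : Type*} [Field k] [Finite k] (w t : k) (hw : w ^ 2 + w + 1 = 0)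
    (h3 : (3 : k) ≠ 0) (h7 : w - 2 ≠ 0) (ht : t ^ 2 - w * t + 1 = 0) :
    3 ∣ Nat.card (EF.W49 w).toAffine.Point := by
  classical
  have hfin : Finite (EF.W49 w).toAffine.Point :=
    Finite.of_equiv _ (pointEquivOption _).symm
  obtain ⟨x, hx⟩ : ∃ x : k, 3 * x = -(1 + 2 * w) := ⟨-(1 + 2 * w) / 3, by field_simp⟩
  obtain ⟨y, hy⟩ : ∃ y : k, 3 * y = t - 2 * w := ⟨(t - 2 * w) / 3, by field_simp⟩
  have hl2 : (1 + 2 * w) ^ 2 = -3 := by linear_combination 4 * hw
  have h27 : (27 : k) ≠ 0 := by
    have : (27 : k) = 3 * 3 * 3 := by norm_num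
    rw [this]
    exact mul_ne_zero (mul_ne_zero h3 h3) h3
  have heq : y ^ 2 + w * y = x ^ 3 + (1 + 2 * w) * x ^ 2 - x := by
    have h : 27 * (y ^ 2 + w * y - (x ^ 3 + (1 + 2 * w) * x ^ 2 - x)) = 0 := by
      linear_combination 3 * ht + (9 * y + 3 * (t - 2 * w) + 9 * w) * hy -
        ((3 * x) ^ 2 - (1 + 2 * w) * (3 * x) + (1 + 2 * w) ^ 2 +
        3 * (1 + 2 * w) * (3 * x - (1 + 2 * w)) - 9) * hx - 2 * (1 + 2 * w) * hl2 - 6 * hw
    have h' := (mul_eq_zero.mp h).resolve_left h27
    linear_combination h'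
  have h2y : 2 * y + w ≠ 0 := by
    intro h
    have e1 : 2 * t - w = 0 := by linear_combination 3 * h - 2 * hy
    have e2 : (w + 2) * (w - 2) = 0 := by
      linear_combination (2 * t - w) * e1 - 4 * ht
    rcases mul_eq_zero.mp e2 with h5 | h5
    · apply h3
      linear_combination hw - (w - 1) * h5
    · exact h7 h5
  have hE : (EF.W49 w).toAffine.Equation x y := by
    rw [Affine.equation_iff]
    simp only [EF.W49, WeierstrassCurve.toAffine]
    linear_combination heq
  have hneg : (EF.W49 w).toAffine.negY x y = -y - w := by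
    simp only [Affine.negY, EF.W49, WeierstrassCurve.toAffine]
    ring
  have hyne : y ≠ (EF.W49 w).toAffine.negY x y := by
    rw [hneg]
    intro h
    apply h2y
    linear_combination h
  have hN : (EF.W49 w).toAffine.Nonsingular x y := by
    rw [Affine.nonsingular_iff]
    refine ⟨hE, Or.inr ?_⟩
    rw [hneg] at hyne
    simp only [EF.W49, WeierstrassCurve.toAffine]
    intro h
    apply hyne
    linear_combination h
  have hslope : (EF.W49 w).toAffine.slope x x y y = 0 := by
    rw [Affine.slope_of_Y_ne (W := (EF.W49 w).toAffine) (rfl : x = x) hyne, div_eq_zero_iff]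
    left
    simp only [EF.W49, WeierstrassCurve.toAffine]
    have h : 3 * (3 * x ^ 2 + 2 * (1 + 2 * w) * x + -1 - 0 * y) = 0 := by
      linear_combination (3 * x - (1 + 2 * w) + 2 * (1 + 2 * w)) * hx - hl2
    exact (mul_eq_zero.mp h).resolve_left h3
  have hX : (EF.W49 w).toAffine.addX x x 0 = x := by
    simp only [Affine.addX, EF.W49, WeierstrassCurve.toAffine]
    linear_combination -hx
  have hPP : Affine.Point.some x y hN + Affine.Point.some x y hN = -Affine.Point.some x y hN := by
    rw [Affine.Point.add_self_of_Y_ne hyne, Affine.Point.neg_some]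
    simp only [Affine.Point.some.injEq]
    rw [hslope]
    refine ⟨hX, ?_⟩
    rw [Affine.addY, Affine.negAddY, hX, zero_mul, zero_add]
  have h3P : (3 : ℕ) • Affine.Point.some x y hN = 0 := by
    rw [succ_nsmul, two_nsmul, hPP, neg_add_cancel]
  have hord : addOrderOf (Affine.Point.some x y hN) = 3 :=
    addOrderOf_eq_prime h3P (Affine.Point.some_ne_zero _)
  rw [← hord]
  exact addOrderOf_dvd_natCard _

/-- The ramification condition of Theorem T3 in terms of the number of points of the reduction: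
every prime `q` of `K` which ramifies in `F` is prime to `3`, and it contains `ω - 2` or the
number of points of `y² + ω y = x³ + (1 + 2ω) x² - x` over `𝓞 K / q` is prime to `3`. -/
theorem ramCond3_of_card {F : Type*} [Field F] [NumberField F] [Algebra K F]
    (h : ∀ q : HeightOneSpectrum (𝓞 K), Ram F q → (3 : 𝓞 K) ∉ q.asIdeal ∧
      (piO ∉ q.asIdeal → ¬ 3 ∣ Nat.card
        (EF.W49 (Ideal.Quotient.mk q.asIdeal omO)).toAffine.Point)) : S8.RamCond3 F := by
  intro q hq
  obtain ⟨h3, hc⟩ := h q hq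
  refine ⟨h3, fun hpi t ht => hc hpi ?_⟩
  have hmax : q.asIdeal.IsMaximal := q.isMaximal
  let _ : Field (𝓞 K ⧸ q.asIdeal) := Ideal.Quotient.field q.asIdeal
  have hfin : Finite (𝓞 K ⧸ q.asIdeal) := Ideal.finiteQuotientOfFreeOfNeBot _ q.ne_bot
  refine three_dvd_of_root (Ideal.Quotient.mk q.asIdeal omO) (Ideal.Quotient.mk q.asIdeal t)
    ?_ ?_ ?_ ?_
  · rw [← map_pow, ← map_add, ← map_one (Ideal.Quotient.mk q.asIdeal), ← map_add]
    have e : omO ^ 2 + omO + 1 = 0 := EF.omO_eq
    rw [e, map_zero]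
  · intro h
    apply h3
    rw [← Ideal.Quotient.eq_zero_iff_mem, map_ofNat]
    exact h
  · intro h
    apply hpi
    rw [← Ideal.Quotient.eq_zero_iff_mem, piO, map_sub, map_ofNat]
    exact h
  · rw [← Ideal.Quotient.eq_zero_iff_mem] at ht
    rw [map_add, map_sub, map_pow, map_mul, map_one] at ht
    exact ht

end Pool.Agent.Lib.MP_1a91b9_ntT3
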